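import Pool.Agent.Prismatic.Example

/-!
# A basis presentation that is not prismatically collapsible

The relators `a b⁻¹ a b⁻² c⁻¹`, `b`, `c b a b⁻² c⁻¹ b` form a basis of the free group on `a, b, c`,
but the presentation complex is not prismatically collapsible.
-/

set_option autoImplicit false

namespace Pool.Agent.Results.MP_c23c79_gt.NonCollapsibleBasis

open Pool.Agent.Prismatic

/-- There is a presentation `⟨a_1, …, a_n | R_1, …, R_n⟩` whose (reduced) relators form a basis of
the free group on `a_1, …, a_n`, while its 2-complex is not prismatically collapsible. -/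
theorem result : ∃ (n : ℕ) (R : Fin n → FreeGroup (Fin n)),
    (∃ b : FreeGroupBasis (Fin n) (FreeGroup (Fin n)), ∀ j, b j = R j) ∧
    ¬ PrismaticallyCollapsible fun j => (R j).toWord := by
  refine ⟨3, Example.R, ⟨(FreeGroupBasis.ofFreeGroup (Fin 3)).map Example.equivR, fun j => ?_⟩, ?_⟩
  · rw [FreeGroupBasis.map_apply, FreeGroupBasis.ofFreeGroup_apply]
    change FreeGroup.lift Example.R (FreeGroup.of j) = Example.R j
    rw [FreeGroup.lift_apply_of]
  · rw [Example.toWord_R]
    exact Example.not_prismaticallyCollapsible

end Pool.Agent.Results.MP_c23c79_gt.NonCollapsibleBasis
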